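import Pool.Agent.H620R2.Gauge2.CoverN
import Pool.Agent.H620R2.Gauge2.V7
import Pool.Agent.H620R2.Gauge2.Trans

/-!
# More separations in the same world, by subadditivity
-/

set_option autoImplicit false

namespace Pool.Agent.W2helper26.PR

open Pool.Agent.NPC Pool.Agent.H620R2.Gauge Filter MeasureTheory

/-- the slowly growing gauge -/
noncomputable def lll (ε : ℝ) (N : ℕ) : ℝ := ε * Real.logb 2 (Real.logb 2 (Real.logb 2 N))

theorem null_of_le {f g : ℕ → ℝ} {C : ℝ} (h : ∀ N, g N ≤ f N + C) {X : Set Oracle} (hX : Null f X) :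
    Null g X := by
  intro δ hδ
  have hC : (0 : ℝ) < 2 ^ C := Real.rpow_pos_of_pos (by norm_num) _
  obtain ⟨S, h1, h2⟩ := hX (δ / 2 ^ C) (by positivity)
  refine ⟨S, h1, ?_⟩
  calc ∑' σ : S, ENNReal.ofReal (2 ^ (g σ.1.length - σ.1.length))
      ≤ ∑' σ : S, ENNReal.ofReal (2 ^ C) * ENNReal.ofReal (2 ^ (f σ.1.length - σ.1.length)) := by
        refine ENNReal.tsum_le_tsum fun σ => ?_
        rw [← ENNReal.ofReal_mul hC.le, ← Real.rpow_add (by norm_num)]
        apply ENNReal.ofReal_le_ofReal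
        apply Real.rpow_le_rpow_of_exponent_le (by norm_num)
        have := h σ.1.length
        linarith
    _ = ENNReal.ofReal (2 ^ C) * ∑' σ : S, ENNReal.ofReal (2 ^ (f σ.1.length - σ.1.length)) :=
        ENNReal.tsum_mul_left
    _ ≤ ENNReal.ofReal (2 ^ C) * ENNReal.ofReal (δ / 2 ^ C) := by gcongr
    _ = ENNReal.ofReal δ := by
        rw [← ENNReal.ofReal_mul hC.le]
        congr 1
        field_simp

theorem null_of_eventually_le {f g : ℕ → ℝ} (h : ∀ᶠ N in atTop, g N ≤ f N) {X : Set Oracle}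
    (hX : Null f X) : Null g X := by
  obtain ⟨N₀, hN₀⟩ := Filter.eventually_atTop.1 h
  refine null_of_le (C := ∑ i ∈ Finset.range N₀, |g i - f i|) (fun N => ?_) hX
  rcases Nat.lt_or_ge N N₀ with hN | hN
  · have h5 : |g N - f N| ≤ ∑ i ∈ Finset.range N₀, |g i - f i| :=
      Finset.single_le_sum (f := fun i : ℕ => |g i - f i|) (fun _ _ => abs_nonneg _)
        (Finset.mem_range.2 hN)
    have h6 := le_abs_self (g N - f N)
    linarith
  · have h5 : 0 ≤ ∑ i ∈ Finset.range N₀, |g i - f i| := Finset.sum_nonneg fun _ _ => abs_nonneg _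
    have := hN₀ N hN
    linarith

theorem null_union {f : ℕ → ℝ} {X Y : Set Oracle} (hX : Null f X) (hY : Null f Y) :
    Null f (X ∪ Y) := by
  have h := null_iUnion (f := f) (fun b : Bool => if b = true then X else Y) (fun b => by
    cases b
    · simpa using hY
    · simpa using hX)
  refine h.mono ?_
  rintro A (hA | hA)
  · exact Set.mem_iUnion.2 ⟨true, by simpa using hA⟩
  · exact Set.mem_iUnion.2 ⟨false, by simpa using hA⟩

theorem lll_le (ε δ : ℝ) (hδ : 0 < δ) :
    ∀ᶠ N : ℕ in atTop, lll ε N ≤ 2 ^ (Real.logb 2 N) ^ δ := by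
  have h1 : Tendsto (fun N : ℕ => Real.logb 2 (N : ℝ)) atTop atTop :=
    (Real.tendsto_logb_atTop (by norm_num)).comp tendsto_natCast_atTop_atTop
  have h2 : ∀ᶠ y : ℝ in atTop, ε * Real.logb 2 (Real.logb 2 y) ≤ y ^ δ := by
    have h3 : ∀ᶠ y : ℝ in atTop, ‖Real.log y‖ ≤ (Real.log 2 / (|ε| + 1)) * ‖y ^ δ‖ :=
      (isLittleO_log_rpow_atTop hδ).bound (by positivity)
    filter_upwards [h3, eventually_ge_atTop (4 : ℝ)] with y h4 h5
    have hy : (1 : ℝ) ≤ Real.logb 2 y := by
      rw [Real.le_logb_iff_rpow_le (by norm_num) (by linarith)]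
      norm_num
      linarith
    have h6 : Real.logb 2 (Real.logb 2 y) ≤ Real.logb 2 y := by
      have h7 : Real.logb 2 y < 2 ^ Real.logb 2 y := by
        have := Real.add_one_le_exp (Real.logb 2 y * Real.log 2)
        have h8 : (2 : ℝ) ^ Real.logb 2 y = Real.exp (Real.logb 2 y * Real.log 2) := by
          rw [Real.rpow_def_of_pos (by norm_num), mul_comm]
        rw [Real.rpow_logb (by norm_num) (by norm_num) (by linarith)]
        have h9 : Real.log y ≤ y - 1 := Real.log_le_sub_one_of_pos (by linarith)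
        unfold Real.logb
        rw [div_lt_iff₀ (Real.log_pos (by norm_num))]
        have h10 : Real.log y = 2 * Real.log (Real.sqrt y) := by
          rw [Real.log_sqrt (by linarith)]; ring
        have h11 : Real.log (Real.sqrt y) ≤ Real.sqrt y - 1 :=
          Real.log_le_sub_one_of_pos (Real.sqrt_pos.2 (by linarith))
        have h12 : Real.sqrt y * Real.sqrt y = y := Real.mul_self_sqrt (by linarith)
        have h13 : (0.69 : ℝ) < Real.log 2 := by
          have := Real.log_two_gt_d9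
          linarith
        have h14 : 2 ≤ Real.sqrt y := by
          rw [show (2 : ℝ) = Real.sqrt 4 by
            rw [show (4 : ℝ) = 2 ^ 2 by norm_num, Real.sqrt_sq (by norm_num)]]
          exact Real.sqrt_le_sqrt h5
        nlinarith [sq_nonneg (Real.sqrt y - 2), mul_self_nonneg (Real.sqrt y - 1)]
      rw [Real.logb_le_iff_le_rpow (by norm_num) (by linarith)]
      exact h7.le
    have h15 : 0 ≤ Real.logb 2 (Real.logb 2 y) := Real.logb_nonneg (by norm_num) hy
    have hl2 : 0 < Real.log 2 := Real.log_pos (by norm_num)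
    have h16 : Real.log y ≤ (Real.log 2 / (|ε| + 1)) * y ^ δ := by
      refine (le_abs_self _).trans ?_
      have h17 : ‖y ^ δ‖ = y ^ δ := Real.norm_of_nonneg (Real.rpow_nonneg (by linarith) _)
      rw [h17] at h4
      exact h4
    have h18 : Real.logb 2 y ≤ (1 / (|ε| + 1)) * y ^ δ := by
      unfold Real.logb
      rw [div_le_iff₀ hl2]
      calc Real.log y ≤ (Real.log 2 / (|ε| + 1)) * y ^ δ := h16
        _ = 1 / (|ε| + 1) * y ^ δ * Real.log 2 := by ring
    have h19 : 0 ≤ y ^ δ := Real.rpow_nonneg (by linarith) _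
    calc ε * Real.logb 2 (Real.logb 2 y) ≤ |ε| * Real.logb 2 (Real.logb 2 y) :=
          mul_le_mul_of_nonneg_right (le_abs_self ε) h15
      _ ≤ |ε| * ((1 / (|ε| + 1)) * y ^ δ) :=
          mul_le_mul_of_nonneg_left (h6.trans h18) (abs_nonneg _)
      _ = (|ε| / (|ε| + 1)) * y ^ δ := by ring
      _ ≤ 1 * y ^ δ := by
          apply mul_le_mul_of_nonneg_right _ h19
          rw [div_le_one (by positivity)]
          linarith
      _ = y ^ δ := one_mul _
  filter_upwards [h1.eventually h2] with N hN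
  refine hN.trans ?_
  set z := (Real.logb 2 (N : ℝ)) ^ δ
  have h3 : z + 1 ≤ Real.exp z := Real.add_one_le_exp z
  by_cases hz : z ≤ 0
  · exact hz.trans (Real.rpow_nonneg (by norm_num) _)
  · push Not at hz
    have h4 : (2 : ℝ) ^ z = Real.exp (Real.log 2 * z) := Real.rpow_def_of_pos (by norm_num) z
    have h5 : z < 2 ^ z := by
      have h6 : Real.log 2 * z / 2 + 1 ≤ Real.exp (Real.log 2 * z / 2) := Real.add_one_le_exp _
      have h7 : Real.exp (Real.log 2 * z) = Real.exp (Real.log 2 * z / 2) *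
          Real.exp (Real.log 2 * z / 2) := by
        rw [← Real.exp_add]
        congr 1
        ring
      have h8 : (0.69 : ℝ) < Real.log 2 := by
        have := Real.log_two_gt_d9
        linarith
      rw [h4, h7]
      nlinarith [mul_pos hz (by linarith : (0:ℝ) < Real.log 2), sq_nonneg (Real.log 2 * z / 2 - 1)]
    exact h5.le

/-- `NP` is not contained in `coNP` with advice -/
def Sep (A : Oracle) : Prop := ∃ L, IsNP A L ∧ ¬ WithAdvice (IsNP A) Lᶜ

theorem ext {X : Set Oracle} {ε : ℝ} (hX : ¬ Null (lll ε) X) {f : ℕ → ℝ}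
    (hf : ∀ᶠ N : ℕ in atTop, lll ε N ≤ f N) : ¬ Null f (X ∩ {A | Sep A}) := by
  intro h0
  have h1 := null_of_eventually_le hf h0
  have hc : Cond (lll ε) := fun δ hδ => (lll_le ε δ hδ).frequently
  have h2 : Null (lll ε) {A | ∀ L, IsNP A L → WithAdvice (IsNP A) Lᶜ} :=
    nullN hc _ fun A hA => hA _ (hitLang_np A)
  refine hX ((null_union h1 h2).mono ?_)
  intro A hA
  by_cases h4 : ∀ L, IsNP A L → WithAdvice (IsNP A) Lᶜ
  · exact Or.inr h4
  push Not at h4
  exact Or.inl ⟨hA, h4⟩

end Pool.Agent.W2helper26.PR
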