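import Pool.Agent.W2helper26.PR.Stm
import Pool.Agent.W2helper26.PR.Ext
import Pool.Agent.W2helper26.PB.Fin
import Pool.Agent.W2helper26.PB.Cnt
import Pool.Agent.W2helper15.PB.Lup
import Pool.Agent.W2helper18.PB.Core
import Pool.Agent.W2helper47.PB.Found
import Pool.Agent.W2helper66.PB.Hit1
import Pool.Agent.W2helper69.PB.Cnt0
import Pool.Agent.W2helper69.PB.Levb
import Pool.Agent.W2helper93.PB.Hit2
import Pool.Agent.W2helper61.RF.Fin

/-!
# The assembly
-/

set_option autoImplicit false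

namespace Pool.Agent.W2helper26.PR

open Filter MeasureTheory Pool.Agent.NPC Pool.Agent.H622R2 Pool.Agent.H620R2.Gauge
  Pool.Agent.W2helper26.PB Pool.Agent.W2helper61.RF
open Pool.Agent.W2helper58.BR (IsUP)

open Classical in
/-- the oracle with the guide, for any promise -/
noncomputable def PhiG (c₀ : ℕ) (P : Oracle → Ix → ℕ → Prop) (B : Oracle) (y : List Bool) : Bool :=
  if h : ∃ p : Ix × ℕ, y = gam c₀ p.1 p.2 then
    decide (P (fun z => if _hz : z.length < y.length then PhiG c₀ P B z else false)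
      h.choose.1 h.choose.2)
  else B y
termination_by y.length

theorem exists_fix (c₀ : ℕ) (P : Oracle → Ix → ℕ → Prop)
    (hP : ∀ (A A' : Oracle) (i : Ix) (m : ℕ),
      (∀ z : List Bool, z.length ≤ lev c₀ i (m + 1) → A z = A' z) → (P A i m ↔ P A' i m)) :
    ∃ Φ : Oracle → Oracle, (∀ B y, (∀ i m, y ≠ gam c₀ i m) → Φ B y = B y) ∧
      ∀ B i m, Φ B (gam c₀ i m) = true ↔ P (Φ B) i m := by
  classical
  refine ⟨PhiG c₀ P, fun B y h => ?_, fun B i m => ?_⟩
  · rw [PhiG, dif_neg]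
    rintro ⟨p, hp⟩
    exact h _ _ hp
  · have h : ∃ p : Ix × ℕ, gam c₀ i m = gam c₀ p.1 p.2 := ⟨(i, m), rfl⟩
    rw [PhiG, dif_pos h, decide_eq_true_iff]
    obtain ⟨h1, h2⟩ := gam_inj c₀ h.choose_spec
    rw [← h1, ← h2]
    apply hP
    intro z hz
    rw [dif_pos (hz.trans_lt (length_gam c₀ i m))]

/-- The promise: `i` codes two formulas, and the reflection sentences are true up to level `m`, for all
oracles which agree with `A` at the short strings. -/
def GoodR (c₀ : ℕ) (A : Oracle) (i : Ix) (m : ℕ) : Prop :=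
  ∃ F μ : Fm, i.1 = pairBits F.enc μ.enc ∧ F.Below 4 ∧ μ.Below 3 ∧
    ∀ O' : Oracle, (∀ u : List Bool, u.length ≤ lev c₀ i (m + 1) → A u = O' u) →
      ∀ n ≤ lev c₀ i m, (rfn F μ n).sat (nat O') (fun _ => 0)

theorem GoodR_local (c₀ : ℕ) (A A' : Oracle) (i : Ix) (m : ℕ)
    (h : ∀ z : List Bool, z.length ≤ lev c₀ i (m + 1) → A z = A' z) :
    GoodR c₀ A i m ↔ GoodR c₀ A' i m := by
  unfold GoodR
  refine exists_congr fun F => exists_congr fun μ => and_congr_right fun _ =>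
    and_congr_right fun _ => and_congr_right fun _ => forall_congr' fun O' => ?_
  constructor
  · intro h1 h2
    exact h1 fun u hu => (h u hu).trans (h2 u hu)
  · intro h1 h2
    exact h1 fun u hu => (h u hu).symm.trans (h2 u hu)

theorem wrap_enc (F μ : Fm) (n M : ℕ) : (cl F μ n M).enc = wrap F.enc μ.enc n M := by
  simp [cl, rfn, Fm.enc, preR, wrap]

/-- Some theory in the class `𝒯` relative to `A` has, for every theory in `𝒯` (and even for every
consistent theory), short proofs of the finite reflection sentences. -/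
def Short (A : Oracle) : Prop :=
  ∃ S : Set Fm, InT A S ∧ ∀ μ : Fm, Bdd μ → μ.Below 3 → ∀ T : Set Fm, Cons A T →
    ∀ F : Fm, Sound A T μ F → ∃ (f : List Bool → List Bool) (p : Polynomial ℕ), PolyTime f ∧
      ∀ n : ℕ, ∃ π : List Fm, PfOf A S (rfn F μ n) π ∧ (encPf π).length ≤ p.eval n ∧
        f (List.replicate n true) = encPf π

theorem short_of_guide (hgamc : P_gamc) (hdecs : P_decs) (hlevr : P_levr) (hlevb : P_levb) {c₀ : ℕ}
    {A : Oracle} (hA : ∀ i m, A (gam c₀ i m) = true ↔ GoodR c₀ A i m) : Short A := by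
  classical
  refine ⟨{φ | ∃ (F μ : Fm) (n M d m : ℕ), φ = cl F μ n M ∧
    n ≤ lev c₀ (pairBits F.enc μ.enc, d) m ∧ (gam c₀ (pairBits F.enc μ.enc, d) m).length ≤ M ∧
    A (gam c₀ (pairBits F.enc μ.enc, d) m) = true}, ?_, ?_⟩
  · have key : ∀ (F μ : Fm) (n d m : ℕ), A (gam c₀ (pairBits F.enc μ.enc, d) m) = true →
        n ≤ lev c₀ (pairBits F.enc μ.enc, d) m →
        F.Below 4 ∧ μ.Below 3 ∧ (rfn F μ n).sat (nat A) (fun _ => 0) := by
      intro F μ n d m h hn
      obtain ⟨F', μ', h1, h2, h3, h4⟩ := (hA _ _).1 h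
      obtain ⟨e1, e2⟩ := pair_inj h1
      have e3 := Fm.enc_injective e1
      have e4 := Fm.enc_injective e2
      subst e3 e4
      exact ⟨h2, h3, h4 A (fun _ _ => rfl) n hn⟩
    refine ⟨?_, ?_, ?_⟩
    · rintro φ ⟨F, μ, n, M, d, m, rfl, hn, hM, h⟩
      obtain ⟨h1, h2, _⟩ := key F μ n d m h hn
      exact below_cl h1 h2 n M
    · refine ⟨_, hdecs hgamc c₀ A, fun x => ?_⟩
      rw [List.cons.injEq, decide_eq_true_iff]
      simp only [and_true]
      constructor
      · rintro ⟨φ, ⟨F, μ, n, M, d, m, rfl, hn, hM, h⟩, rfl⟩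
        exact ⟨F.enc, μ.enc, n, M, d, m, wrap_enc F μ n M, hn, hM, h⟩
      · rintro ⟨u, v, n, M, d, m, rfl, hn, hM, h⟩
        obtain ⟨F, μ, h1, _⟩ := (hA _ _).1 h
        obtain ⟨rfl, rfl⟩ := pair_inj h1
        exact ⟨cl F μ n M, ⟨F, μ, n, M, d, m, rfl, hn, hM, h⟩, wrap_enc F μ n M⟩
    · refine ⟨ℕ, nat A, ?_⟩
      rintro φ (hφ | ⟨F, μ, n, M, d, m, rfl, hn, hM, h⟩) v
      · exact nat_base A hφ v
      · obtain ⟨h1, h2, h3⟩ := key F μ n d m h hn
        rw [Fm.sat_congr (nat A) _ (below_cl h1 h2 n M) (w := fun _ => 0)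
          (fun i hi => absurd hi (Nat.not_lt_zero _)), sat_cl]
        exact h3
  · intro μ hμ hμ3 T hT F hF
    obtain ⟨q, hq⟩ := rfn_loc hF.1 hμ
    obtain ⟨d, hd⟩ := hlevb q
    obtain ⟨r, hr⟩ := hlevr c₀ (pairBits F.enc μ.enc, d)
    refine ⟨fun x => encPf [rfn F μ x.length, cl F μ x.length (r.eval x.length),
      pad (r.eval x.length)], Polynomial.C (10 * (F.enc.length + μ.enc.length + 100)) +
      Polynomial.C 120 * Polynomial.X + Polynomial.C 6 * r, ?_, fun n => ?_⟩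
    · have hl : UPoly (fun x : List Bool => x.length) := UPoly.length Poly.id
      exact polyTime_of_poly_list (poly_encPf F μ hl.toPoly (hl.eval r))
    obtain ⟨m, hm, hg⟩ := hr n
    set M : ℕ := r.eval n with hM
    have hlen : (cl F μ n M).enc.length = 3 * M + 18 + (rfn F μ n).enc.length := by
      show (true :: false :: ((pad M).enc ++ (rfn F μ n).enc)).length = _
      rw [List.length_cons, List.length_cons, List.length_append, length_pad]
      omega
    have hgood : GoodR c₀ A (pairBits F.enc μ.enc, d) m := by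
      refine ⟨F, μ, rfl, hF.2.1, hμ3, fun O' hO' n' hn' => ?_⟩
      have h1 : q.eval n' < lev c₀ (pairBits F.enc μ.enc, d) (m + 1) + 1 := by
        have h2 := hd c₀ (pairBits F.enc μ.enc) d m le_rfl
        have h3 := eval_mono q hn'
        omega
      exact (hq n' _ h1 A O' fun u hu => hO' u (by omega)).1 (rfn_true hT hF hμ hμ3 n' _)
    have hmem : cl F μ n M ∈ {φ | ∃ (F μ : Fm) (n M d m : ℕ), φ = cl F μ n M ∧
        n ≤ lev c₀ (pairBits F.enc μ.enc, d) m ∧ (gam c₀ (pairBits F.enc μ.enc, d) m).length ≤ M ∧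
        A (gam c₀ (pairBits F.enc μ.enc, d) m) = true} :=
      ⟨F, μ, n, M, d, m, rfl, hm, hg, (hA _ _).2 hgood⟩
    refine ⟨[rfn F μ n, cl F μ n M, pad M], ⟨?_, rfl⟩, ?_, by simp only [List.length_replicate, hM]⟩
    · refine Prf.mp _ (pad M) _ (Prf.ax _ _ (Prf.ax _ _ Prf.nil (Or.inl (pad_lax M)))
        (Or.inr (Or.inr hmem))) ?_ ?_
      · exact List.mem_cons_self
      · simp
    · have h1 := length_rfn F μ n
      have h2 := length_pad M
      simp only [encPf, List.length_cons, List.length_append, List.length_nil, hlen,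
        Polynomial.eval_add, Polynomial.eval_mul, Polynomial.eval_C, Polynomial.eval_X]
      omega

/-- the general form of the theorem -/
theorem not_null_gen (f : ℕ → ℝ) (ε : ℝ) (hε : 0 < ε)
    (hf : ∀ᶠ N : ℕ in atTop, ε * Real.logb 2 (Real.logb 2 (Real.logb 2 N)) ≤ f N)
    (Y : Set Oracle) (hY : ∀ c₀ : ℕ, ∃ Φ : Oracle → Oracle,
      (∀ B y, (∀ i m, y ≠ gam c₀ i m) → Φ B y = B y) ∧ ∀ B, Φ B ∈ Y) :
    ¬ Null f (Y ∩ {A | ∃ L, IsUP A L ∧ ¬ IsP A L}) := by
  classical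
  obtain ⟨c₀, hc₀⟩ := p_cnt' Pool.Agent.W2helper69.PB.p_cnt0 ε hε
  obtain ⟨Φ, hΦ1, hΦ2⟩ := hY c₀
  obtain ⟨N₀, hN₀⟩ := Filter.eventually_atTop.1 (hf.and hc₀)
  set c : ℝ := ∑ i ∈ Finset.range N₀, |(i : ℝ) - f i| with hcd
  set G : Set Oracle := {B | (∃ n₀ : ℕ, ∀ w w' : List Bool, n₀ ≤ w.length →
      w'.length = w.length → Hit B w → Hit B w' → w = w') ∧
    (∃ᶠ n : ℕ in atTop, ∃ w : List Bool, w.length = n ∧ Hit B w) ∧
    ∀ M : Alg, ∀ᶠ n : ℕ in atTop, ¬ ∃ w : List Bool, w.length = n ∧ Hit B w ∧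
      ∀ i < n, M.out (Φ B) (qs n i) = some [true] ↔ w.getD i false = true} with hG
  have hcount : Countable Alg := by
    have h1 := CC.poly_countable
    infer_instance
  have hGae : ∀ᵐ B ∂ranO, B ∈ G := by
    have h3 : ∀ᵐ B ∂ranO, ∀ M : Alg, ∀ᶠ n : ℕ in atTop, ¬ ∃ w : List Bool, w.length = n ∧
        Hit B w ∧ ∀ i < n, M.out (Φ B) (qs n i) = some [true] ↔ w.getD i false = true :=
      ae_all_iff.2 fun M => Pool.Agent.W2helper47.PB.p_found Pool.Agent.W2helper18.PB.p_core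
        Pool.Agent.W2helper69.PB.p_cnt0 c₀ Φ hΦ1 M
    filter_upwards [Pool.Agent.W2helper66.PB.p_hit1, Pool.Agent.W2helper93.PB.p_hit2, h3] with
      B h1 h2 h3
    exact ⟨h1, h2, h3⟩
  have hGc : ranO Gᶜ = 0 := hGae
  have hGpos : 0 < ranO G := by
    rw [pos_iff_ne_zero]
    intro h0
    have h1 : ranO (G ∪ Gᶜ) ≤ ranO G + ranO Gᶜ := measure_union_le _ _
    rw [Set.union_compl_self, measure_univ, h0, hGc, add_zero] at h1
    exact absurd h1 (by norm_num)
  have hc0 : 0 ≤ c := Finset.sum_nonneg fun _ _ => abs_nonneg _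
  refine not_null_of f G hGpos Φ {y | ∃ i m, y = gam c₀ i m} ?_ c ?_ _ ?_
  · intro B y hy
    apply hΦ1
    intro i m he
    exact hy ⟨i, m, he⟩
  · intro N
    rcases Nat.lt_or_ge N N₀ with hN | hN
    · have h4 : (((Finset.range N).filter
          (fun i => str i ∈ {y | ∃ i m, y = gam c₀ i m})).card : ℝ) ≤ N := by
        have := Finset.card_filter_le (Finset.range N)
          (fun i => str i ∈ {y | ∃ i m, y = gam c₀ i m})
        rw [Finset.card_range] at this
        exact_mod_cast this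
      have h5 : |(N : ℝ) - f N| ≤ c :=
        Finset.single_le_sum (f := fun i : ℕ => |(i : ℝ) - f i|) (fun _ _ => abs_nonneg _)
          (Finset.mem_range.2 hN)
      have h6 := le_abs_self ((N : ℝ) - f N)
      linarith
    · obtain ⟨h1, h2⟩ := hN₀ N hN
      have h3 : (((Finset.range N).filter
          (fun i => str i ∈ {y | ∃ i m, y = gam c₀ i m})).card : ℝ) ≤
          ε * Real.logb 2 (Real.logb 2 (Real.logb 2 N)) := by
        refine le_trans (le_of_eq ?_) h2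
        congr 2
      linarith
  · rintro B ⟨⟨n₀, h1⟩, h2, h3⟩
    have hAB : ∀ y, (∀ i m, y ≠ gam c₀ i m) → Φ B y = B y := fun y => hΦ1 B y
    have h1' : ∀ w w' : List Bool, n₀ ≤ w.length → w'.length = w.length → Hit (Φ B) w →
        Hit (Φ B) w' → w = w' := by
      intro w w' h4 h5 h6 h7
      exact h1 w w' h4 h5 ((hit_iff hAB w).1 h6) ((hit_iff hAB w').1 h7)
    refine ⟨hΦ2 B, LU (Φ B) n₀, Pool.Agent.W2helper15.PB.p_lup (Φ B) n₀ h1', not_isP h1' ?_ ?_⟩
    · refine h2.mono ?_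
      rintro n ⟨w, hw, hh⟩
      exact ⟨w, hw, (hit_iff hAB w).2 hh⟩
    · intro M
      refine (h3 M).mono ?_
      rintro n h4 ⟨w, hw, hh, h5⟩
      exact h4 ⟨w, hw, (hit_iff hAB w).1 hh, h5⟩

theorem main (hgamc : P_gamc) (hdecs : P_decs) (hlevr : P_levr) (f : ℕ → ℝ) (ε : ℝ) (hε : 0 < ε)
    (hf : ∀ᶠ N : ℕ in atTop, ε * Real.logb 2 (Real.logb 2 (Real.logb 2 N)) ≤ f N) :
    ¬ Null f (({A | Short A} ∩ {A | ∃ L, IsUP A L ∧ ¬ IsP A L}) ∩ {A | Sep A}) := by
  refine ext (ε := ε) ?_ hf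
  refine not_null_gen (lll ε) ε hε (Eventually.of_forall fun N => le_rfl) _ fun c₀ => ?_
  obtain ⟨Φ, h1, h2⟩ := exists_fix c₀ (GoodR c₀) (GoodR_local c₀)
  exact ⟨Φ, h1, fun B => short_of_guide hgamc hdecs hlevr Pool.Agent.W2helper69.PB.p_levb (h2 B)⟩

end Pool.Agent.W2helper26.PR
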