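import Pool.Agent.W2helper26.PB.Stm
import Pool.Agent.W2helper61.RF.Uni
import Pool.Agent.H620R2.Gauge.A2

/-!
# Project PR: a few planted bits give short proofs of reflection. The pieces

Every definition `P_...` below is one piece; prove `theorem p_... : P_...` in a file of your own,
`Pool/Agent/W2<seat>/PR/<name>.lean`.
-/

set_option autoImplicit false

namespace Pool.Agent.W2helper26.PR

open Pool.Agent.NPC Pool.Agent.H620R2.Gauge Pool.Agent.W2helper26.PB Pool.Agent.W2helper61.RF

/-- the beginning of the string of the sentence `rfn F μ n` -/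
def preR (n : ℕ) : List Bool :=
  [true, true, true, true, true, true, true, true] ++
    (true :: false :: (Fm.le (.len (.var 3)) (num n)).enc) ++
    (true :: false :: (Fm.le (.len (.var 2)) (num n)).enc) ++
    (true :: false :: (Fm.le (.len (.var 1)) (num n)).enc) ++
    (true :: false :: (Fm.le (.len (.var 0)) (num n)).enc) ++ [true, false]

/-- the string of the sentence `cl F μ n M`, if `u`, `v` are the strings of `F`, `μ` -/
def wrap (u v : List Bool) (n M : ℕ) : List Bool :=
  true :: false :: ((pad M).enc ++ (preR n ++ (u ++ v)))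

/-- Piece GAMC. The strings `gam` of length at most `t` are computed in polynomial time (framework `NPC.Poly`, all numbers in
unary): `lev` by iterated doubling (for the exponent) and squaring, cut at `t` (iteration lemma in
`NPC/Num.lean`); or by means of the framework `PF`, as in `W2helper12/PB/Ver.lean` and `W2helper51/PB/Red.lean`. -/
def P_gamc : Prop := ∀ c₀ : ℕ,
  Poly (fun a : List Bool × List Unit × List Unit × List Unit =>
    if (gam c₀ (a.1, a.2.1.length) a.2.2.1.length).length ≤ a.2.2.2.length then
      some (gam c₀ (a.1, a.2.1.length) a.2.2.1.length) else none) ∧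
  Poly (fun a : List Bool × List Unit × List Unit × List Unit =>
    decide (a.2.2.2.length ≤ lev c₀ (a.1, a.2.1.length) a.2.2.1.length))

open Classical in
/-- Piece DECS (use `P_gamc`). In the condition `n, M, d, m, |u| ≤ |x|`, since `|gam c₀ i m| ≤ M` and
`m < |gam|`, `d < |gam|`, `n ≤ lev ≤ |gam|`. So `IsFP.tt` (`H620R2/Gauge/A2.lean`) with the list of the questions `gam c₀ i m` for
all choices with `x = wrap u v n M`, where `u ++ v` is a fixed end of `x` (or: `u = (x.drop a).take b`, `v = x.drop (a + b)`),
and the verdict `any`. `poly_num`, `poly_pad` in `W2helper61/RF/Uni.lean`. -/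
def P_decs : Prop := P_gamc → ∀ (c₀ : ℕ) (O : Oracle), IsFP O (fun x =>
  [decide (∃ (u v : List Bool) (n M d m : ℕ), x = wrap u v n M ∧
    n ≤ lev c₀ (pairBits u v, d) m ∧ (gam c₀ (pairBits u v, d) m).length ≤ M ∧
    O (gam c₀ (pairBits u v, d) m) = true)])

/-- Piece LEVR: the least level above `n` is polynomially bounded, `lev c₀ i (m + 1) = (lev c₀ i m) ^ D` with
`D = 2 ^ 2 ^ (c₀ + 2 |c| + d)`. Compare `W2helper51/PB/Red.lean`. -/
def P_levr : Prop := ∀ (c₀ : ℕ) (i : Ix), ∃ r : Polynomial ℕ, ∀ n : ℕ, ∃ m : ℕ,
  n ≤ lev c₀ i m ∧ (gam c₀ i m).length ≤ r.eval n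

end Pool.Agent.W2helper26.PR
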